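import Mathlib
import Pool.Agent.Helper64.RectU.Params
import Pool.Agent.Helper64.RL.Final
import Pool.Agent.Helper64.RL.FinalNum

/-!
Matching bounds for the chromatic number of Delaunay graphs of point sets in the plane with respect
to axis-parallel rectangles: `exp (c log n / log log n) ≤ d(n) ≤ exp (C log n / log log n)`, so that
`log d(n)` is of the order `log n / log log n`.

Upper bound. Write the ranks of the coordinates in base `2 ^ w` with `k` digits. A visible pair has a
type `(i, j)`: the first digits where the two abscissas and the two ordinates differ. Pass to the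
points whose visible pairs to the upper right have a given set of types; this set is a chain of at
most `2 k` types, and the cells of these scales then contain no two comparable points. Make all cell
sizes regular. Inside a cell of such a scale the cells of a coarser-finer scale cut a descending chain
into intervals, which gives a law of stack type for the cell sizes. Hence the chain of types can be
cut at the deep valleys of the profile of cell sizes into few groups such that every point sees few
cells of the largest scale of the group through pairs with types in the group; a random choice of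
such cells kills these pairs. The depth of the valleys is chosen among many dyadic values.

Lower bound. A random point pattern in `α × α` with `N = |α|` is measured by the constant `γ` such
that the mean of the largest weight `∑ f(x) g(y)` of an independent set of it is at most
`γ ‖f‖ ‖g‖` for all `f, g ≥ 0`. One step: every point becomes a decreasing chain of `b` points at a
random place in a cell of side `2 b`; then independent copies of the pattern are put into the columns
and into the rows of a grid of side `n = 2 b N`: the point `((κ, χ), (ρ, ψ))` is present if `(χ, ρ)` is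
in the pattern of the column `κ` and `(κ, ψ)` is in the pattern of the row `ρ`, with lexicographic
orders. The visible pairs inside the columns and inside the rows give independent sets of which the
mean weight is at most `γ ^ 2 ‖f‖ ‖g‖` up to a small error: the dependence of the weights in the
rows on the choice of the independent sets of the columns is removed by sampling few positions in
every cell, by which the labels of the sampled columns determine everything up to a small error, and
by a union bound over these labels with sub-Gaussian concentration; the labels do not feel the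
chains, so that a small power of `1 / γ` suffices for `b`. An additive error is converted into a
factor by the uniformity of the pattern. So `log (1 / γ)` is doubled, while `log N` is doubled up to
an additive term of the order `log (1 / γ)`. The lower bound was found independently by three
members of the team (helper55, helper64, helper95).
-/

namespace Pool.Agent.Results.MP_b66d25_co.LogOrder

open Pool.Agent.Helper64.RectU Pool.Agent.Helper55.RD

/-- The Delaunay graph of a finite set `P` of points of the plane with respect to axis-parallel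
rectangles: two distinct points are adjacent if some rectangle `[a, b] × [c, d]` meets `P` in exactly
these two points. -/
def delaunay (P : Finset (ℝ × ℝ)) : SimpleGraph P where
  Adj p q := p ≠ q ∧ ∃ a b c d : ℝ, a ≤ b ∧ c ≤ d ∧
    (P : Set (ℝ × ℝ)) ∩ (Set.Icc a b ×ˢ Set.Icc c d) = {(p : ℝ × ℝ), (q : ℝ × ℝ)}
  symm := ⟨by
    rintro p q ⟨h, a, b, c, d, h1, h2, h3⟩
    exact ⟨h.symm, a, b, c, d, h1, h2, by rw [h3, Set.pair_comm]⟩⟩
  loopless := ⟨fun _ h => h.1 rfl⟩

/-- `d(n)`: the least integer such that the Delaunay graphs of all sets of `n` points of the plane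
are `d(n)`-colourable. -/
noncomputable def dnum (n : ℕ) : ℕ :=
  sInf {D : ℕ | ∀ P : Finset (ℝ × ℝ), P.card = n → (delaunay P).Colorable D}

/-! ### The upper bound -/

theorem dnum_le_of {n D : ℕ} (h : ∀ P : Finset (ℝ × ℝ), P.card = n →
    (delaunay P).Colorable D) : dnum n ≤ D := Nat.sInf_le h

theorem dnum_le_self (n : ℕ) : dnum n ≤ n := by
  apply dnum_le_of
  intro P hP
  have h := (delaunay P).colorable_of_fintype
  rw [Fintype.card_coe, hP] at h
  exact h

theorem dnum_le_main {n w k l B Δ c E : ℕ} (hP : n ≤ (2 ^ w) ^ k)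
    (hl : w * k + 1 ≤ 2 ^ l) (hB : 0 < B)
    (hΔ : Δ = (k + 1) ^ 2 * (l + 2)) (hc : c = 2 * w + k ^ 2 + Δ + 3 + k ^ 2 * (Δ + 2))
    (hE : E = k ^ 2 + 1 + (k + 1) ^ 2 * l + (2 ^ B * c + 2 * (2 * (w * k + c) / B))) :
    dnum n ≤ 2 ^ (2 * E + l) := by
  apply dnum_le_of
  intro P hPn
  obtain ⟨f, hf1, hf2⟩ := plane w k l B P (by rw [hPn]; exact hP) hl hB hΔ hc hE
  refine ⟨SimpleGraph.Coloring.mk (fun p => (⟨f p, hf1 p p.2⟩ : Fin (2 ^ (2 * E + l)))) ?_⟩
  rintro ⟨p, hp⟩ ⟨q, hq⟩ ⟨hne, a, b, c', d, hab, hcd, hset⟩ heq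
  have hfe : f p = f q := by
    have := congrArg Fin.val heq
    exact this
  refine hf2 p hp q hq (fun h => hne (Subtype.ext h)) ?_ hfe
  intro r hr h1 h2 h3 h4
  have hpm : p ∈ (P : Set (ℝ × ℝ)) ∩ (Set.Icc a b ×ˢ Set.Icc c' d) := by
    rw [hset]; exact Or.inl rfl
  have hqm : q ∈ (P : Set (ℝ × ℝ)) ∩ (Set.Icc a b ×ˢ Set.Icc c' d) := by
    rw [hset]; exact Or.inr rfl
  have hrm : r ∈ (P : Set (ℝ × ℝ)) ∩ (Set.Icc a b ×ˢ Set.Icc c' d) := by
    refine ⟨hr, ?_, ?_⟩
    · refine ⟨?_, ?_⟩
      · exact le_trans (le_min hpm.2.1.1 hqm.2.1.1) h1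
      · exact le_trans h2 (max_le hpm.2.1.2 hqm.2.1.2)
    · refine ⟨?_, ?_⟩
      · exact le_trans (le_min hpm.2.2.1 hqm.2.2.1) h3
      · exact le_trans h4 (max_le hpm.2.2.2 hqm.2.2.2)
  rw [hset] at hrm
  exact hrm

theorem final_calc {t F L : ℕ} {x y : ℝ} (ht : 0 < t) (h : t * F ≤ 4400 * L)
    (hy2 : y ≤ (10 * (t : ℝ) + 10) * Real.log 2) (hx : (L : ℝ) * Real.log 2 ≤ x) :
    (F : ℝ) * Real.log 2 * y ≤ 61600 * x := by
  have hlog2 : Real.log 2 < 0.6931471808 := Real.log_two_lt_d9
  have hlog2' : 0 < Real.log 2 := Real.log_pos (by norm_num)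
  have h3 : (t : ℝ) * (F : ℝ) ≤ 4400 * (L : ℝ) := by exact_mod_cast h
  have h5 : (1 : ℝ) ≤ t := by exact_mod_cast ht
  have h4 : y ≤ 14 * (t : ℝ) := by
    have h6 : (10 * (t : ℝ) + 10) * Real.log 2 ≤ (20 * (t : ℝ)) * 0.7 := by
      apply mul_le_mul (by linarith) (by linarith) hlog2'.le (by linarith)
    linarith
  have h6 : (0 : ℝ) ≤ (F : ℝ) * Real.log 2 := mul_nonneg (Nat.cast_nonneg _) hlog2'.le
  calc (F : ℝ) * Real.log 2 * y ≤ (F : ℝ) * Real.log 2 * (14 * (t : ℝ)) :=
        mul_le_mul_of_nonneg_left h4 h6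
    _ = 14 * Real.log 2 * ((t : ℝ) * (F : ℝ)) := by ring
    _ ≤ 14 * Real.log 2 * (4400 * (L : ℝ)) :=
        mul_le_mul_of_nonneg_left h3 (by linarith)
    _ = 61600 * ((L : ℝ) * Real.log 2) := by ring
    _ ≤ 61600 * x := mul_le_mul_of_nonneg_left hx (by norm_num)

theorem upper (n : ℕ) (hn : 3 ≤ n) :
    (dnum n : ℝ) ≤ Real.exp (61600 * Real.log n / Real.log (Real.log n)) := by
  have hnpos : (0 : ℝ) < n := by exact_mod_cast (by omega : 0 < n)
  have hlog3 : 1 < Real.log n := by
    have h1 : Real.exp 1 < 3 := lt_trans Real.exp_one_lt_d9 (by norm_num)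
    have h2 : Real.exp 1 < n := lt_of_lt_of_le h1 (by exact_mod_cast hn)
    exact (Real.lt_log_iff_exp_lt hnpos).mpr h2
  have hll : 0 < Real.log (Real.log n) := Real.log_pos hlog3
  have hlog2 : Real.log 2 < 0.6931471808 := Real.log_two_lt_d9
  have hlog2' : 0 < Real.log 2 := Real.log_pos (by norm_num)
  set L := Nat.log 2 n with hL
  have hL1 : 2 ^ L ≤ n := Nat.pow_log_le_self 2 (by omega)
  have hL2 : n < 2 ^ (L + 1) := Nat.lt_pow_succ_log_self (by norm_num) n
  have hLpos : 1 ≤ L := by
    by_contra h
    have : L = 0 := by omega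
    rw [this] at hL2
    omega
  have hlogn1 : (L : ℝ) * Real.log 2 ≤ Real.log n := by
    rw [← Real.log_pow]
    apply Real.log_le_log (by positivity)
    exact_mod_cast hL1
  have hlogn2 : Real.log n ≤ ((L : ℝ) + 1) * Real.log 2 := by
    have : ((L : ℝ) + 1) * Real.log 2 = Real.log ((2 : ℝ) ^ (L + 1)) := by
      rw [Real.log_pow]; push_cast; ring
    rw [this]
    apply Real.log_le_log hnpos
    exact_mod_cast hL2.le
  set t := Nat.log 2 L / 10 with ht
  have hlt : L < 2 ^ (10 * t + 10) := by
    apply Nat.lt_pow_of_log_lt (by norm_num)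
    omega
  have hllle : Real.log (Real.log n) ≤ (10 * (t : ℝ) + 10) * Real.log 2 := by
    have h1 : Real.log n ≤ (2 : ℝ) ^ (10 * t + 10) := by
      have h2 : (L : ℝ) + 1 ≤ (2 : ℝ) ^ (10 * t + 10) := by exact_mod_cast hlt
      calc Real.log n ≤ ((L : ℝ) + 1) * Real.log 2 := hlogn2
        _ ≤ ((L : ℝ) + 1) * 1 := by
            apply mul_le_mul_of_nonneg_left (by linarith) (by positivity)
        _ ≤ _ := by linarith
    calc Real.log (Real.log n) ≤ Real.log ((2 : ℝ) ^ (10 * t + 10)) :=
          Real.log_le_log (by linarith) h1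
      _ = (10 * (t : ℝ) + 10) * Real.log 2 := by rw [Real.log_pow]; push_cast; ring
  rcases Nat.eq_zero_or_pos t with ht0 | htpos
  · -- small `n`
    have h1 : (dnum n : ℝ) ≤ n := by exact_mod_cast dnum_le_self n
    refine h1.trans ?_
    rw [← Real.log_le_iff_le_exp hnpos, le_div_iff₀ hll]
    rw [ht0] at hllle
    have h2 : Real.log (Real.log n) ≤ 61600 := by
      refine hllle.trans ?_
      norm_num
      nlinarith
    nlinarith
  · have hLt : 2 ^ (10 * t) ≤ L := by
      calc 2 ^ (10 * t) ≤ 2 ^ Nat.log 2 L := Nat.pow_le_pow_right (by norm_num) (by omega)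
        _ ≤ L := Nat.pow_log_le_self 2 (by omega)
    set k := 2 ^ (2 * t) with hk
    set w := L / k + 1 with hw
    set l := 10 * t + 12 with hl
    set Δ := (k + 1) ^ 2 * (l + 2) with hΔ
    set c := 2 * w + k ^ 2 + Δ + 3 + k ^ 2 * (Δ + 2) with hc
    set E := k ^ 2 + 1 + (k + 1) ^ 2 * l + (2 ^ t * c + 2 * (2 * (w * k + c) / t)) with hE
    have hkpos : 0 < k := by positivity
    have hwk1 : L + 1 ≤ w * k := by
      have h1 := Nat.div_add_mod L k
      have h2 := Nat.mod_lt L hkpos
      have h3 : w * k = k * (L / k) + k := by rw [hw]; ring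
      omega
    have hwk2 : w * k ≤ L + k := by
      have h1 := Nat.div_mul_le_self L k
      have h3 : w * k = L / k * k + k := by rw [hw]; ring
      omega
    have hkle : k ≤ 2 ^ (10 * t + 10) := Nat.pow_le_pow_right (by norm_num) (by omega)
    have hP : n ≤ (2 ^ w) ^ k := by
      rw [← pow_mul]
      exact hL2.le.trans (Nat.pow_le_pow_right (by norm_num) hwk1)
    have hl1 : w * k + 1 ≤ 2 ^ l := by
      have h1 : (2 : ℕ) ^ l = 4 * 2 ^ (10 * t + 10) := by
        rw [hl]
        have : 10 * t + 12 = (10 * t + 10) + 2 := by ring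
        rw [this, pow_add _ _ 2]
        ring
      have h2 : 1 ≤ 2 ^ (10 * t + 10) := Nat.one_le_two_pow
      omega
    have hmain := dnum_le_main hP hl1 htpos hΔ hc hE
    have hpar := params htpos hLt hk hw hl hΔ hc hE
    have htr : (0 : ℝ) < t := by exact_mod_cast htpos
    have h1 : (dnum n : ℝ) ≤ (2 : ℝ) ^ (2 * E + l) := by exact_mod_cast hmain
    refine h1.trans ?_
    have h2 : (2 : ℝ) ^ (2 * E + l) = Real.exp ((2 * E + l : ℕ) * Real.log 2) := by
      rw [Real.exp_nat_mul, Real.exp_log (by norm_num)]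
    rw [h2]
    apply Real.exp_le_exp.mpr
    rw [le_div_iff₀ hll]
    exact final_calc htpos hpar hllle hlogn1


/-! ### The lower bound -/

/-- Realisation of a permutation by `n` points of the plane. -/
theorem embed {N : ℕ} (p : Fin N → Fin N) {n : ℕ} (hn : N ≤ n) : ∃ (P : Finset (ℝ × ℝ)) (f : Fin N → P), P.card = n ∧
      ∀ u v, Vis p id u v → (delaunay P).Adj (f u) (f v) := by
  classical
  set g : Fin N → ℝ × ℝ := fun v => (((p v : ℕ) : ℝ), ((v : ℕ) : ℝ)) with hg
  set far : ℕ → ℝ × ℝ := fun i => (-((i : ℝ) + 1), -((i : ℝ) + 1)) with hfar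
  have hgi : Function.Injective g := by
    intro u v huv
    have := (Prod.ext_iff.mp huv).2
    simp only [hg, Nat.cast_inj] at this
    exact Fin.ext this
  have hfi : Function.Injective far := by
    intro i j hij
    have := (Prod.ext_iff.mp hij).1
    simp only [hfar, neg_inj, add_left_inj, Nat.cast_inj] at this
    exact this
  set P : Finset (ℝ × ℝ) := Finset.univ.image g ∪ (Finset.range (n - N)).image far with hP
  have hdisj : Disjoint (Finset.univ.image g) ((Finset.range (n - N)).image far) := by
    rw [Finset.disjoint_left]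
    intro x hx hx'
    obtain ⟨v, -, rfl⟩ := Finset.mem_image.mp hx
    obtain ⟨i, -, hi⟩ := Finset.mem_image.mp hx'
    have := (Prod.ext_iff.mp hi).1
    simp only [hg, hfar] at this
    have h1 : (0 : ℝ) ≤ ((p v : ℕ) : ℝ) := Nat.cast_nonneg _
    have h2 : (0 : ℝ) ≤ i := Nat.cast_nonneg _
    linarith
  have hmem : ∀ v, g v ∈ P := fun v => by
    rw [hP, Finset.mem_union]
    exact Or.inl (Finset.mem_image_of_mem _ (Finset.mem_univ v))
  refine ⟨P, fun v => ⟨g v, hmem v⟩, ?_, ?_⟩
  · rw [hP, Finset.card_union_of_disjoint hdisj, Finset.card_image_of_injective _ hgi,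
      Finset.card_image_of_injective _ hfi, Finset.card_univ, Finset.card_range, Fintype.card_fin]
    omega
  · rintro u v ⟨hY, hX, hempty⟩
    simp only [id] at hY hempty
    refine ⟨fun h => (ne_of_lt hY) (hgi (congrArg Subtype.val h)), ((p u : ℕ) : ℝ), ((p v : ℕ) : ℝ),
      ((u : ℕ) : ℝ), ((v : ℕ) : ℝ), ?_, ?_, ?_⟩
    · exact_mod_cast (Fin.lt_def.mp hX).le
    · exact_mod_cast (Fin.lt_def.mp hY).le
    ext x
    simp only [Set.mem_inter_iff, Finset.mem_coe, Set.mem_prod, Set.mem_Icc, Set.mem_insert_iff,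
      Set.mem_singleton_iff]
    constructor
    · rintro ⟨hxP, ⟨hx1, hx2⟩, ⟨hy1, hy2⟩⟩
      rw [hP, Finset.mem_union, Finset.mem_image, Finset.mem_image] at hxP
      rcases hxP with ⟨w, -, rfl⟩ | ⟨i, -, rfl⟩
      · simp only [hg] at hx1 hx2 hy1 hy2
        rcases hempty w (Fin.le_def.mpr (by exact_mod_cast hy1))
          (Fin.le_def.mpr (by exact_mod_cast hy2)) (Fin.le_def.mpr (by exact_mod_cast hx1))
          (Fin.le_def.mpr (by exact_mod_cast hx2)) with h | h
        · left; rw [h]
        · right; rw [h]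
      · exfalso
        simp only [hfar] at hx1
        have h1 : (0 : ℝ) ≤ ((p u : ℕ) : ℝ) := Nat.cast_nonneg _
        have h2 : (0 : ℝ) ≤ i := Nat.cast_nonneg _
        linarith
    · have hX' : ((p u : ℕ) : ℝ) ≤ ((p v : ℕ) : ℝ) := by exact_mod_cast (Fin.lt_def.mp hX).le
      have hY' : ((u : ℕ) : ℝ) ≤ ((v : ℕ) : ℝ) := by exact_mod_cast (Fin.lt_def.mp hY).le
      rintro (rfl | rfl)
      · exact ⟨hmem u, ⟨le_rfl, hX'⟩, ⟨le_rfl, hY'⟩⟩
      · exact ⟨hmem v, ⟨hX', le_rfl⟩, ⟨hY', le_rfl⟩⟩

/-- the number of colours needed for a permutation with small independent sets -/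
theorem colors {N n D : ℕ} {K : ℝ} (hG : Good N K) (hn : N ≤ n)
    (hD : ∀ P : Finset (ℝ × ℝ), P.card = n → (delaunay P).Colorable D) : (N : ℝ) ≤ D * K := by
  classical
  obtain ⟨p, -, hind⟩ := hG
  obtain ⟨P, f, hPn, hadj⟩ := embed p hn
  obtain ⟨c⟩ := hD P hPn
  have h1 : ∀ i : Fin D, ((Finset.univ.filter (fun v => c (f v) = i)).card : ℝ) ≤ K := by
    intro i
    apply hind
    intro u hu v hv huv
    simp only [Finset.mem_filter, Finset.mem_univ, true_and] at hu hv
    exact c.valid (hadj u v huv) (hu.trans hv.symm)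
  have h2 : N = ∑ i : Fin D, (Finset.univ.filter (fun v : Fin N => c (f v) = i)).card := by
    conv_lhs => rw [← Fintype.card_fin N, ← Finset.card_univ]
    exact Finset.card_eq_sum_card_fiberwise (fun v _ => Finset.mem_coe.mpr (Finset.mem_univ _))
  calc (N : ℝ) = ∑ i : Fin D, ((Finset.univ.filter (fun v : Fin N => c (f v) = i)).card : ℝ) := by
        rw [← Nat.cast_sum, ← h2]
    _ ≤ ∑ _i : Fin D, K := Finset.sum_le_sum (fun i _ => h1 i)
    _ = D * K := by rw [Finset.sum_const, Finset.card_univ, Fintype.card_fin, nsmul_eq_mul]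

/-- two points -/
theorem good_two : Good 2 1 := by
  refine ⟨id, Function.injective_id, fun S hS => ?_⟩
  by_contra hcon
  rw [not_le] at hcon
  have h0 : 1 < S.card := by exact_mod_cast hcon
  have h1 : S = Finset.univ := by
    apply Finset.eq_univ_of_card
    have := Finset.card_le_univ S
    rw [Fintype.card_fin] at this ⊢
    omega
  apply hS 0 (h1 ▸ Finset.mem_univ _) 1 (h1 ▸ Finset.mem_univ _)
  refine ⟨by decide, by decide, ?_⟩
  intro c _ _ _ _
  fin_cases c
  · left; rfl
  · right; rfl


/-! ### The result -/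

theorem dnum_spec (n : ℕ) (P : Finset (ℝ × ℝ)) (hP : P.card = n) :
    (delaunay P).Colorable (dnum n) := by
  have hne : {D : ℕ | ∀ P : Finset (ℝ × ℝ), P.card = n → (delaunay P).Colorable D}.Nonempty := by
    refine ⟨n, fun P hP => ?_⟩
    have := (delaunay P).colorable_of_fintype
    rwa [Fintype.card_coe, hP] at this
  exact Nat.sInf_mem hne P hP

theorem lower : ∃ c : ℝ, 0 < c ∧ ∀ n : ℕ, 3 ≤ n →
    Real.exp (c * Real.log n / Real.log (Real.log n)) ≤ (dnum n : ℝ) := by
  obtain ⟨A, hA⟩ := Pool.Agent.Helper64.RL.final_good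
  apply Pool.Agent.Helper64.RL.final_num (fun n => (dnum n : ℝ)) A
  · intro n hn
    have := colors good_two hn (dnum_spec n)
    push_cast at this
    show (2 : ℝ) ≤ dnum n
    linarith
  · intro J n hn
    obtain ⟨N, hN0, hN, hG⟩ := hA J
    have h1 := colors hG (hN.trans hn) (dnum_spec n)
    have h2 : (0 : ℝ) < N := by exact_mod_cast hN0
    have h3 : (0 : ℝ) < 2 ^ (2 ^ J) := by positivity
    have h4 : (1 : ℝ) ≤ dnum n * (1 / 2) ^ (2 ^ J) := by
      by_contra hcon
      rw [not_le] at hcon
      have := mul_lt_mul_of_pos_right hcon h2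
      nlinarith
    show (2 : ℝ) ^ (2 ^ J) ≤ dnum n
    rw [one_div, inv_pow, ← div_eq_mul_inv, one_le_div h3] at h4
    exact h4

/-- There are constants `c, C > 0` such that
`exp (c log n / log log n) ≤ d(n) ≤ exp (C log n / log log n)` for all `n ≥ 3`. -/
theorem result : ∃ c C : ℝ, 0 < c ∧ 0 < C ∧ ∀ n : ℕ, 3 ≤ n →
    Real.exp (c * Real.log n / Real.log (Real.log n)) ≤ (dnum n : ℝ) ∧
      (dnum n : ℝ) ≤ Real.exp (C * Real.log n / Real.log (Real.log n)) := by
  obtain ⟨c, hc, h1⟩ := lower
  refine ⟨c, 61600, hc, by norm_num, fun n hn => ⟨h1 n hn, upper n hn⟩⟩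

end Pool.Agent.Results.MP_b66d25_co.LogOrder
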